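import Pool.Agent.PenroseSlice.Defs

/-!
Slices of spacetimes with round, shear-free null cones in double null coordinates.
-/

open MeasureTheory Filter Topology

namespace Pool.Agent.PenroseRound

open Pool.Agent.PenroseSph Pool.Agent.PenroseSlice

/-- The Laplace operator of the unit sphere applied to `f`, at the unit vector `ω`: the Laplacian
of three-space applied to the function that is constant along rays and equals `f` on the
sphere. -/
noncomputable def sphereLaplacian (f : E3 → ℝ) (ω : E3) : ℝ :=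
  ∑ i, pd i (pd i fun ξ => f (‖ξ‖⁻¹ • ξ)) ω

/-- A spacetime `W × S²` with metric `-F(u,v,ω) du dv + r(u,v)² dω²` in double null coordinates
`(u, v) ∈ W`, `ω ∈ S²`. It is not assumed to have any symmetry, since `F` may depend on `ω`. The
null rays in `W` are intervals, and the energy-momentum tensor satisfies `T_uu ≥ 0`, `T_vv ≥ 0`
and `T_uv ≥ 0` (consequences of the dominant energy condition), written with the Einstein
equations in terms of `F` and `r`. -/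
structure RoundSpacetime (W : Set (ℝ × ℝ)) (F : ℝ → ℝ → E3 → ℝ) (r : ℝ → ℝ → ℝ) : Prop where
  isOpen : IsOpen W
  convex_u : ∀ v, Set.OrdConnected {u | (u, v) ∈ W}
  convex_v : ∀ u, Set.OrdConnected {v | (u, v) ∈ W}
  F_pos : ∀ u v, (u, v) ∈ W → ∀ ω : Metric.sphere (0 : E3) 1, 0 < F u v ω
  r_pos : ∀ u v, (u, v) ∈ W → 0 < r u v
  contDiff_F : ContDiffOn ℝ 2 (fun p : ℝ × ℝ × E3 => F p.1 p.2.1 (‖p.2.2‖⁻¹ • p.2.2))
    {p | (p.1, p.2.1) ∈ W ∧ p.2.2 ≠ 0}
  contDiff_r : ContDiffOn ℝ 2 (fun p : ℝ × ℝ => r p.1 p.2) W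
  energy_uu : ∀ u v, (u, v) ∈ W → ∀ ω : Metric.sphere (0 : E3) 1,
    dU (fun a b => dU r a b / F a b ω) u v ≤ 0
  energy_vv : ∀ u v, (u, v) ∈ W → ∀ ω : Metric.sphere (0 : E3) 1,
    dV (fun a b => dV r a b / F a b ω) u v ≤ 0
  energy_uv : ∀ u v, (u, v) ∈ W → ∀ ω : Metric.sphere (0 : E3) 1,
    0 ≤ r u v * dU (dV r) u v + dU r u v * dV r u v + (F u v ω
      - Real.sqrt (F u v ω) * sphereLaplacian (fun ξ => Real.sqrt (F u v ξ)) ω) / 4

/-- The metric induced on the hypersurface `x ↦ (U x, V x, x/|x|)` of the spacetime: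
`g_ij = -F (∂_i U ∂_j V + ∂_i V ∂_j U)/2 + (r/|x|)² (δ_ij - ν_i ν_j)`, `ν = x/|x|`. -/
noncomputable def inducedMetric (F : ℝ → ℝ → E3 → ℝ) (r : ℝ → ℝ → ℝ) (U V : E3 → ℝ) :
    TensorField := fun x =>
  Matrix.of fun i j =>
    -(F (U x) (V x) (‖x‖⁻¹ • x) * (pd i U x * pd j V x + pd i V x * pd j U x)) / 2
      + (r (U x) (V x) / ‖x‖) ^ 2 * ((if i = j then 1 else 0) - (x i / ‖x‖) * (x j / ‖x‖))

/-- A two-ended spacelike slice `x ↦ (U x, V x, x/|x|)`, `x ≠ 0`, of the spacetime. The special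
end is `|x| → ∞`, and the slice is asymptotically flat there. At both ends the double null
coordinates tend to infinity along every ray, and the area radius tends to infinity along the
rays to the other end `x → 0`. -/
structure IsTwoEndedSlice (W : Set (ℝ × ℝ)) (F : ℝ → ℝ → E3 → ℝ) (r : ℝ → ℝ → ℝ)
    (U V : E3 → ℝ) : Prop where
  contDiff_U : ContDiffOn ℝ 2 U {0}ᶜ
  contDiff_V : ContDiffOn ℝ 2 V {0}ᶜ
  mem : ∀ x : E3, x ≠ 0 → (U x, V x) ∈ W
  spacelike : ∀ x : E3, x ≠ 0 → (inducedMetric F r U V x).PosDef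
  outward : ∀ x : E3, x ≠ 0 → radialDeriv U x < 0 ∧ 0 < radialDeriv V x
  U_inner : ∀ ω : Metric.sphere (0 : E3) 1,
    Tendsto (fun ρ : ℝ => U (ρ • (ω : E3))) (𝓝[>] 0) atTop
  U_outer : ∀ ω : Metric.sphere (0 : E3) 1,
    Tendsto (fun ρ : ℝ => U (ρ • (ω : E3))) atTop atBot
  V_inner : ∀ ω : Metric.sphere (0 : E3) 1,
    Tendsto (fun ρ : ℝ => V (ρ • (ω : E3))) (𝓝[>] 0) atBot
  V_outer : ∀ ω : Metric.sphere (0 : E3) 1,
    Tendsto (fun ρ : ℝ => V (ρ • (ω : E3))) atTop atTop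
  r_inner : ∀ ω : Metric.sphere (0 : E3) 1,
    Tendsto (fun ρ : ℝ => r (U (ρ • (ω : E3))) (V (ρ • (ω : E3)))) (𝓝[>] 0) atTop
  decay : ∃ C R : ℝ, ∀ x : E3, R ≤ ‖x‖ → |normalRate r U V x| ≤ C / ‖x‖ ∧ ∀ i j,
    |inducedMetric F r U V x i j - (1 : Matrix (Fin 3) (Fin 3) ℝ) i j| ≤ C / ‖x‖ ∧
    ∀ k, |pd k (fun y => inducedMetric F r U V y i j) x| ≤ C / ‖x‖ ^ 2

end Pool.Agent.PenroseRound
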