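import Pool.Agent.PenroseRound.Slice

/-! The mean of the quasi-local mass over large spheres. -/

open MeasureTheory Filter Topology Set Asymptotics

namespace Pool.Agent.PenroseRound

open Pool.Agent.PenroseSph Pool.Agent.PenroseSlice

theorem exists_of_eventually_li {P : ℝ × Sp → Prop} (h : ∀ᶠ p in li, P p) :
    ∃ t1 : ℝ, ∀ t, t1 ≤ t → ∀ ω, P (t, ω) := by
  obtain ⟨pa, ha, pb, hb, hab⟩ := eventually_prod_iff.1 h
  rw [eventually_top] at hb
  obtain ⟨t1, ht1⟩ := eventually_atTop.1 ha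
  exact ⟨t1, fun t ht ω => hab (ht1 t ht) (hb ω)⟩

section

variable {W : Set (ℝ × ℝ)} {φ : E3 → ℝ} {r : ℝ → ℝ → ℝ} {U V : E3 → ℝ}

/-- The mass function on the slice. -/
noncomputable def Mf (φ : E3 → ℝ) (r : ℝ → ℝ → ℝ) (U V : E3 → ℝ) (x : E3) : ℝ :=
  r (U x) (V x) / 2 + 2 * r (U x) (V x) * (dU r (U x) (V x) / φ x) * dV r (U x) (V x)

theorem diff_rT (hT : AFSlice W φ r U V) {u v : ℝ} (hp : (u, v) ∈ W) :
    DifferentiableAt ℝ (fun p : ℝ × ℝ => r p.1 p.2) (u, v) :=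
  (hT.contDiff_r.differentiableOn (by norm_num)).differentiableAt (hT.isOpen.mem_nhds hp)

/-- normalized area radius -/
noncomputable def b1 (r : ℝ → ℝ → ℝ) (U V : E3 → ℝ) (p : ℝ × Sp) : ℝ :=
  r (U (pt p.1 p.2)) (V (pt p.1 p.2)) / Real.exp p.1

/-- its derivative -/
noncomputable def b1d (r : ℝ → ℝ → ℝ) (U V : E3 → ℝ) (p : ℝ × Sp) : ℝ :=
  dU r (U (pt p.1 p.2)) (V (pt p.1 p.2)) * ru U p
    + dV r (U (pt p.1 p.2)) (V (pt p.1 p.2)) * ru V p - b1 r U V p

/-- derivative of the squared normalized area radius -/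
noncomputable def Bd (r : ℝ → ℝ → ℝ) (U V : E3 → ℝ) (p : ℝ × Sp) : ℝ :=
  Real.exp p.1 * rd (Bf r U V) (pt p.1 p.2)

/-- normal rate along rays -/
noncomputable def sr (r : ℝ → ℝ → ℝ) (U V : E3 → ℝ) (p : ℝ × Sp) : ℝ :=
  dV r (U (pt p.1 p.2)) (V (pt p.1 p.2)) * ru V p
    - dU r (U (pt p.1 p.2)) (V (pt p.1 p.2)) * ru U p

theorem Bf_eq (p : ℝ × Sp) : Bf r U V (pt p.1 p.2) = b1 r U V p ^ 2 := by
  unfold Bf b1
  rw [norm_pt]

theorem b1_pos (hT : AFSlice W φ r U V) (p : ℝ × Sp) :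
    0 < b1 r U V p :=
  div_pos (hT.r_pos _ _ (memW hT (pt_mem p.1 p.2))) (Real.exp_pos _)

theorem hder_B (hT : AFSlice W φ r U V) (t : ℝ) (ω : Sp) :
    HasDerivAt (fun s => Bf r U V (pt s ω)) (Bd r U V (t, ω)) t :=
  hasDerivAt_comp_pt (diff_of_cd (cd_B hT) (pt_mem t ω))

theorem diffU (hT : AFSlice W φ r U V) {x : E3} (hx : x ∈ reg) : DifferentiableAt ℝ U x :=
  diff_of_cd ((cdU hT).of_le (by norm_num)) hx

theorem diffV (hT : AFSlice W φ r U V) {x : E3} (hx : x ∈ reg) : DifferentiableAt ℝ V x :=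
  diff_of_cd ((cdV hT).of_le (by norm_num)) hx

theorem hderU (hT : AFSlice W φ r U V) (t : ℝ) (ω : Sp) :
    HasDerivAt (fun s => U (pt s ω)) (Real.exp t * ru U (t, ω)) t := by
  rw [ru_eq']
  exact hasDerivAt_comp_pt (diffU hT (pt_mem t ω))

theorem hderV (hT : AFSlice W φ r U V) (t : ℝ) (ω : Sp) :
    HasDerivAt (fun s => V (pt s ω)) (Real.exp t * ru V (t, ω)) t := by
  rw [ru_eq']
  exact hasDerivAt_comp_pt (diffV hT (pt_mem t ω))

theorem hder_r (hT : AFSlice W φ r U V) (t : ℝ) (ω : Sp) :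
    HasDerivAt (fun s => r (U (pt s ω)) (V (pt s ω)))
      (dU r (U (pt t ω)) (V (pt t ω)) * (Real.exp t * ru U (t, ω))
        + dV r (U (pt t ω)) (V (pt t ω)) * (Real.exp t * ru V (t, ω))) t :=
  hasDerivAt_comp_curve (diff_rT hT (memW hT (pt_mem t ω))) (hderU hT t ω) (hderV hT t ω)

theorem Bd_eq (hT : AFSlice W φ r U V) (p : ℝ × Sp) :
    Bd r U V p = 2 * b1 r U V p * b1d r U V p := by
  obtain ⟨t, ω⟩ := p
  have h1 := hder_B hT t ω
  have h2 := ((hder_r hT t ω).div (Real.hasDerivAt_exp t) (Real.exp_pos t).ne').pow 2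
  have h3 : (fun s => Bf r U V (pt s ω)) = ((fun s => r (U (pt s ω)) (V (pt s ω))) / Real.exp) ^ 2
      := by
    funext s
    unfold Bf
    rw [norm_pt]
    rfl
  rw [h3] at h1
  rw [h1.unique h2]
  unfold b1d b1
  have := (Real.exp_pos t).ne'
  simp only [Pi.div_apply, Nat.cast_ofNat, Nat.add_one_sub_one, pow_one]
  field_simp

/-- The mass along rays. -/
theorem mass_eq (hT : AFSlice W φ r U V) (p : ℝ × Sp) :
    Mf φ r U V (pt p.1 p.2) =
      b1 r U V p * (gA (Gc φ r U V) p)⁻¹ * (Real.exp p.1 / 2 * (gA (Gc φ r U V) p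
        - Bf r U V (pt p.1 p.2) - Bd r U V p))
      + Real.exp p.1 * b1 r U V p / 2 * (gA (Gc φ r U V) p)⁻¹
        * (sr r U V p ^ 2 - b1d r U V p ^ 2) := by
  have hA := gA_pos hT p
  have hAe := gA_eq (φ := φ) (r := r) (U := U) (V := V) p
  have hF := hT.φ_pos _ (pt_mem p.1 p.2)
  have ho := hT.outward _ (pt_ne_zero p.1 p.2)
  rw [← ru_eq, ← ru_eq] at ho
  have hr : r (U (pt p.1 p.2)) (V (pt p.1 p.2)) = Real.exp p.1 * b1 r U V p := by
    unfold b1
    have := (Real.exp_pos p.1).ne'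
    field_simp
  rw [Bd_eq hT, Bf_eq]
  have e1 : b1d r U V p = dU r (U (pt p.1 p.2)) (V (pt p.1 p.2)) * ru U p
    + dV r (U (pt p.1 p.2)) (V (pt p.1 p.2)) * ru V p - b1 r U V p := rfl
  rw [e1]
  unfold Mf sr
  rw [hr, hAe]
  have hα : ru U p ≠ 0 := ho.1.ne
  have hβ : ru V p ≠ 0 := ho.2.ne'
  have hF' := hF.ne'
  field_simp
  ring

theorem B_O (hT : AFSlice W φ r U V) :
    (fun p : ℝ × Sp => Bf r U V (pt p.1 p.2) - 1) =O[li] ee :=
  B_sub_one_O (B := fun p => Bf r U V (pt p.1 p.2)) (fun i j p => gN_eq hT i j p)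
    (fun p => cv_nu p) (hG_O hT)

theorem Bd_O' (hT : AFSlice W φ r U V) :
    (fun p : ℝ × Sp => Bd r U V p) =O[li] ee :=
  Bd_O (B := fun p => Bf r U V (pt p.1 p.2)) (fun i j p => gN_eq hT i j p)
    (fun p => cv_nu p) (hG_O hT) (hGd_O hT) (hder_G hT) (hder_B hT) (gA_pos hT)

theorem sr_O (hT : AFSlice W φ r U V) : (fun p : ℝ × Sp => sr r U V p) =O[li] ee := by
  obtain ⟨C, R, hC⟩ := hT.decay
  refine IsBigO.of_bound C ?_
  filter_upwards [eventually_large R] with p hp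
  have h1 := (hC _ hp).1
  rw [norm_pt] at h1
  have h2 : normalRate r U V (pt p.1 p.2) = sr r U V p := by
    unfold normalRate sr
    rw [ru_eq, ru_eq]
  rw [h2] at h1
  unfold ee
  rw [Real.norm_eq_abs, Real.norm_eq_abs, Real.abs_exp, Real.exp_neg, ← div_eq_mul_inv]
  exact h1

theorem b1_O (hT : AFSlice W φ r U V) :
    (fun p : ℝ × Sp => b1 r U V p - 1) =O[li] ee := by
  refine IsBigO.trans (IsBigO.of_bound 1 (Eventually.of_forall fun p => ?_)) (B_O hT)
  rw [Bf_eq, one_mul, Real.norm_eq_abs, Real.norm_eq_abs]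
  have hb := b1_pos hT p
  have h1 : b1 r U V p ^ 2 - 1 = (b1 r U V p - 1) * (b1 r U V p + 1) := by ring
  rw [h1, abs_mul, abs_of_pos (by linarith : 0 < b1 r U V p + 1)]
  nlinarith [abs_nonneg (b1 r U V p - 1)]

theorem tendsto_b1 (hT : AFSlice W φ r U V) :
    Tendsto (b1 r U V) li (𝓝 1) := by
  have h1 := (b1_O hT).trans_tendsto tendsto_ee
  simpa using h1.add_const 1

theorem b1d_O (hT : AFSlice W φ r U V) :
    (fun p : ℝ × Sp => b1d r U V p) =O[li] ee := by
  have h1 : (fun p => (b1 r U V p)⁻¹) =O[li] fun _ => (1 : ℝ) :=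
    ((tendsto_b1 hT).inv₀ one_ne_zero).isBigO_one ℝ
  have h2 := (O_mul_one (Bd_O' hT) h1).const_mul_left (1 / 2)
  refine h2.congr' (Eventually.of_forall fun p => ?_) EventuallyEq.rfl
  have hb := (b1_pos hT p).ne'
  simp only [Bd_eq hT]
  field_simp

theorem exp_mul_O {f : ℝ × Sp → ℝ} (hf : f =O[li] ee) :
    (fun p => Real.exp p.1 * f p) =O[li] fun _ => (1 : ℝ) := by
  have h1 := (isBigO_refl (fun p : ℝ × Sp => Real.exp p.1) li).mul hf
  refine h1.congr' EventuallyEq.rfl (Eventually.of_forall fun p => ?_)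
  simp only [ee]
  rw [← Real.exp_add]
  simp

theorem mass_O (hT : AFSlice W φ r U V) :
    (fun p : ℝ × Sp => Mf φ r U V (pt p.1 p.2) - Real.exp p.1 / 2 * (gA (Gc φ r U V) p
        - Bf r U V (pt p.1 p.2) - Bd r U V p)) =O[li] ee := by
  have hA := gA_sub_one_O (hG_O hT)
  have hAi := gAinv_O (hG_O hT)
  have hB := B_O hT
  have hBd := Bd_O' hT
  have hb := b1_O hT
  have hb1 : (fun p => b1 r U V p) =O[li] fun _ => (1 : ℝ) := (tendsto_b1 hT).isBigO_one ℝ
  have hs := sr_O hT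
  have hbd := b1d_O hT
  have e1 : (fun p : ℝ × Sp => Real.exp p.1 * (gA (Gc φ r U V) p - Bf r U V (pt p.1 p.2)
      - Bd r U V p)) =O[li] fun _ => (1 : ℝ) := by
    refine exp_mul_O ?_
    refine ((hA.sub hB).sub hBd).congr' (Eventually.of_forall fun p => ?_) EventuallyEq.rfl
    simp only
    ring
  have e2 : (fun p : ℝ × Sp => b1 r U V p * (gA (Gc φ r U V) p)⁻¹ - 1) =O[li] ee := by
    refine (O_mul_one (hb.sub hA) hAi).congr' (Eventually.of_forall fun p => ?_) EventuallyEq.rfl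
    have := (gA_pos hT p).ne'
    simp only
    field_simp
    ring
  have e3 : (fun p : ℝ × Sp => Real.exp p.1 * (sr r U V p)) =O[li] fun _ => (1 : ℝ) :=
    exp_mul_O hs
  have e4 : (fun p : ℝ × Sp => Real.exp p.1 * (b1d r U V p)) =O[li] fun _ => (1 : ℝ) :=
    exp_mul_O hbd
  have e5 := ((O_mul_one e2 e1).const_mul_left (1 / 2)).add
    (((O_mul_one (O_mul_one ((O_mul_one hs e3).sub (O_mul_one hbd e4)) hb1) hAi)).const_mul_left
      (1 / 2))
  refine e5.congr' (Eventually.of_forall fun p => ?_) EventuallyEq.rfl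
  simp only [mass_eq hT]
  ring

/-- The difference between the trace of the metric over the sphere and twice the squared
normalized area radius. -/
noncomputable def Df (φ : E3 → ℝ) (r : ℝ → ℝ → ℝ) (U V : E3 → ℝ) (x : E3) : ℝ :=
  tangentialTrace (gm φ r U V) x - 2 * Bf r U V x

theorem cd_D (hT : AFSlice W φ r U V) :
    ContDiffOn ℝ 1 (Df φ r U V) reg :=
  (cd_tangentialTrace (cd_metric hT)).sub (contDiffOn_const.mul (cd_B hT))

theorem radialPart_pt (p : ℝ × Sp) :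
    radialPart (gm φ r U V) (pt p.1 p.2) = gA (Gc φ r U V) p := by
  unfold radialPart gA Gc nu
  simp only [pt_div_norm]

theorem D_O (hT : AFSlice W φ r U V) :
    (fun p : ℝ × Sp => Df φ r U V (pt p.1 p.2)) =O[li] ee := by
  have hG := hG_O hT
  have h1 := ((((hG 0 0).add (hG 1 1)).add (hG 2 2)).sub (gA_sub_one_O hG)).sub
    ((B_O hT).const_mul_left 2)
  refine h1.congr' (Eventually.of_forall fun p => ?_) EventuallyEq.rfl
  have e : Df φ r U V (pt p.1 p.2) = (Gc φ r U V 0 0 p + Gc φ r U V 1 1 p + Gc φ r U V 2 2 p)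
      - gA (Gc φ r U V) p - 2 * Bf r U V (pt p.1 p.2) := by
    unfold Df tangentialTrace
    rw [radialPart_pt, Fin.sum_univ_three]
    rfl
  simp only [e, dd, dl, ↓reduceIte]
  ring

/-- boundary term -/
noncomputable def Ef (φ : E3 → ℝ) (r : ℝ → ℝ → ℝ) (U V : E3 → ℝ) (t : ℝ) : ℝ :=
  Real.exp t * (1 / 4) * mn fun ω => Df φ r U V (pt t ω)

theorem hder_E (hT : AFSlice W φ r U V) (t : ℝ) :
    HasDerivAt (Ef φ r U V) (Real.exp t * (1 / 4) * (mn fun ω => Df φ r U V (pt t ω))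
      + Real.exp t * (1 / 4) * mn fun ω => Real.exp t * rd (Df φ r U V) (pt t ω)) t :=
  ((Real.hasDerivAt_exp t).mul_const (1 / 4)).mul (hasDerivAt_mn (cd_D hT) t)

theorem cd_rUT (hT : AFSlice W φ r U V) :
    ContDiffOn ℝ 1 (fun p : ℝ × ℝ => dU r p.1 p.2) W :=
  contDiffOn_dU hT.isOpen (n := 1) (by simpa [one_add_one_eq_two] using hT.contDiff_r)

theorem cd_rVT (hT : AFSlice W φ r U V) :
    ContDiffOn ℝ 1 (fun p : ℝ × ℝ => dV r p.1 p.2) W :=
  contDiffOn_dV hT.isOpen (n := 1) (by simpa [one_add_one_eq_two] using hT.contDiff_r)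

theorem cont_dU (hT : AFSlice W φ r U V) :
    ContinuousOn (fun x => dU r (U x) (V x)) reg :=
  (cd_rUT hT).continuousOn.comp ((cdU hT).continuousOn.prodMk (cdV hT).continuousOn)
    fun _ hx => memW hT hx

theorem cont_dV (hT : AFSlice W φ r U V) :
    ContinuousOn (fun x => dV r (U x) (V x)) reg :=
  (cd_rVT hT).continuousOn.comp ((cdU hT).continuousOn.prodMk (cdV hT).continuousOn)
    fun _ hx => memW hT hx

theorem cont_rr (hT : AFSlice W φ r U V) :
    ContinuousOn (fun x => r (U x) (V x)) reg :=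
  hT.contDiff_r.continuousOn.comp ((cdU hT).continuousOn.prodMk (cdV hT).continuousOn)
    fun _ hx => memW hT hx

theorem cont_M (hT : AFSlice W φ r U V) :
    ContinuousOn (Mf φ r U V) reg := by
  have h1 := cont_rr hT
  have h2 := cont_dU hT
  have h3 := cont_dV hT
  have h4 := hT.cd_φ.continuousOn
  exact (h1.div_const 2).add (((continuousOn_const.mul h1).mul
    (h2.div h4 fun x hx => (hT.φ_pos x hx).ne')).mul h3)

/-- the remainder -/
noncomputable def Rf (φ : E3 → ℝ) (r : ℝ → ℝ → ℝ) (U V : E3 → ℝ) (t : ℝ) : ℝ :=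
  mn fun ω => Mf φ r U V (pt t ω) - Real.exp t / 2 * (gA (Gc φ r U V) (t, ω)
        - Bf r U V (pt t ω) - Bd r U V (t, ω))

theorem mean_eq (hT : AFSlice W φ r U V) (t : ℝ) :
    (mn fun ω => Mf φ r U V (pt t ω)) = massIntegral (gm φ r U V) (Real.exp t)
      + (Real.exp t * (1 / 4) * (mn fun ω => Df φ r U V (pt t ω))
      + Real.exp t * (1 / 4) * mn fun ω => Real.exp t * rd (Df φ r U V) (pt t ω))
      + Rf φ r U V t := by
  have hg := cd_metric hT
  have hTr := cd_tangentialTrace hg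
  have hB := cd_B hT
  have hA := cd_radialPart hg
  have hD := cd_D hT
  have cA := cont_comp_pt' hA.continuousOn t
  have cT := cont_comp_pt' hTr.continuousOn t
  have cB := cont_comp_pt' hB.continuousOn t
  have cTd := cont_comp_pt' (cont_rd hTr) t
  have cBd := cont_comp_pt' (cont_rd hB) t
  have cD := cont_comp_pt' hD.continuousOn t
  have cDd := cont_comp_pt' (cont_rd hD) t
  have cM := cont_comp_pt' (cont_M hT) t
  have hrd : ∀ ω : Sp, rd (Df φ r U V) (pt t ω) = rd (tangentialTrace (gm φ r U V))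
      (pt t ω) - 2 * rd (Bf r U V) (pt t ω) := by
    intro ω
    have d1 := diff_of_cd hTr (pt_mem t ω)
    have d2 := diff_of_cd hB (pt_mem t ω)
    have e : Df φ r U V = fun x => tangentialTrace (gm φ r U V) x - 2 * Bf r U V x := rfl
    unfold rd
    rw [e]
    have e2 : ∀ i, pd i (fun x => tangentialTrace (gm φ r U V) x - 2 * Bf r U V x)
        (pt t ω) = pd i (tangentialTrace (gm φ r U V)) (pt t ω)
          - 2 * pd i (Bf r U V) (pt t ω) := fun i => by
      rw [pd_sub d1 (d2.const_mul 2), pd_const_mul 2 d2]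
    simp only [e2, Fin.sum_univ_three]
    ring
  rw [massIntegral_eq_mn hg, ← mn_mul, ← mn_mul, ← mn_mul]
  unfold Rf
  rw [← mn_add, ← mn_add, ← mn_add]
  · congr 1
    funext ω
    rw [hrd ω, ← radialPart_pt (φ := φ) (r := r) (U := U) (V := V) (t, ω)]
    unfold Df Bd
    simp only
    ring
  · refine integrable_sph ?_
    have := cA
    fun_prop
  · refine integrable_sph ?_
    simp only [← radialPart_pt, Bd]
    fun_prop
  · refine integrable_sph ?_
    fun_prop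
  · refine integrable_sph ?_
    fun_prop
  · refine integrable_sph ?_
    fun_prop
  · refine integrable_sph ?_
    fun_prop

end

end Pool.Agent.PenroseRound
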