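import Pool.Agent.PenroseSlice.Null
import Pool.Agent.PenroseRound.Defs

/-! The quasi-local mass in a fixed direction and the area radius along null rays. -/

open Filter Topology Set

namespace Pool.Agent.PenroseRound

open Pool.Agent.PenroseSph Pool.Agent.PenroseSlice

/-- The restriction of the data to a fixed direction. -/
structure Quot (W : Set (ℝ × ℝ)) (F r : ℝ → ℝ → ℝ) : Prop where
  isOpen : IsOpen W
  convex_u : ∀ v, Set.OrdConnected {u | (u, v) ∈ W}
  convex_v : ∀ u, Set.OrdConnected {v | (u, v) ∈ W}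
  F_pos : ∀ u v, (u, v) ∈ W → 0 < F u v
  r_pos : ∀ u v, (u, v) ∈ W → 0 < r u v
  contDiff_F : ContDiffOn ℝ 2 (fun p : ℝ × ℝ => F p.1 p.2) W
  contDiff_r : ContDiffOn ℝ 2 (fun p : ℝ × ℝ => r p.1 p.2) W
  energy_uu : ∀ u v, (u, v) ∈ W → dU (fun a b => dU r a b / F a b) u v ≤ 0
  energy_vv : ∀ u v, (u, v) ∈ W → dV (fun a b => dV r a b / F a b) u v ≤ 0

/-- The quasi-local mass. -/
noncomputable def ms (F r : ℝ → ℝ → ℝ) (u v : ℝ) : ℝ :=
  r u v / 2 + 2 * r u v * (dU r u v / F u v) * dV r u v

section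

variable {W : Set (ℝ × ℝ)} {F r : ℝ → ℝ → ℝ} {u v : ℝ}

theorem diff_r (hS : Quot W F r) (hp : (u, v) ∈ W) :
    DifferentiableAt ℝ (fun p : ℝ × ℝ => r p.1 p.2) (u, v) :=
  (hS.contDiff_r.differentiableOn (by norm_num)).differentiableAt (hS.isOpen.mem_nhds hp)

theorem diff_F (hS : Quot W F r) (hp : (u, v) ∈ W) :
    DifferentiableAt ℝ (fun p : ℝ × ℝ => F p.1 p.2) (u, v) :=
  (hS.contDiff_F.differentiableOn (by norm_num)).differentiableAt (hS.isOpen.mem_nhds hp)

theorem cd_rU (hS : Quot W F r) :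
    ContDiffOn ℝ 1 (fun p : ℝ × ℝ => dU r p.1 p.2) W :=
  contDiffOn_dU hS.isOpen (n := 1) (by simpa [one_add_one_eq_two] using hS.contDiff_r)

theorem cd_rV (hS : Quot W F r) :
    ContDiffOn ℝ 1 (fun p : ℝ × ℝ => dV r p.1 p.2) W :=
  contDiffOn_dV hS.isOpen (n := 1) (by simpa [one_add_one_eq_two] using hS.contDiff_r)

theorem diff_rU (hS : Quot W F r) (hp : (u, v) ∈ W) :
    DifferentiableAt ℝ (fun p : ℝ × ℝ => dU r p.1 p.2) (u, v) :=
  ((cd_rU hS).differentiableOn (by norm_num)).differentiableAt (hS.isOpen.mem_nhds hp)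

theorem diff_rV (hS : Quot W F r) (hp : (u, v) ∈ W) :
    DifferentiableAt ℝ (fun p : ℝ × ℝ => dV r p.1 p.2) (u, v) :=
  ((cd_rV hS).differentiableOn (by norm_num)).differentiableAt (hS.isOpen.mem_nhds hp)

theorem diff_rUF (hS : Quot W F r) (hp : (u, v) ∈ W) :
    DifferentiableAt ℝ (fun p : ℝ × ℝ => dU r p.1 p.2 / F p.1 p.2) (u, v) := by
  have h1 := diff_rU hS hp
  have h2 := diff_F hS hp
  have h3 : F u v ≠ 0 := (hS.F_pos u v hp).ne'
  simp only [div_eq_mul_inv]
  exact h1.mul (h2.inv h3)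

theorem diff_rVF (hS : Quot W F r) (hp : (u, v) ∈ W) :
    DifferentiableAt ℝ (fun p : ℝ × ℝ => dV r p.1 p.2 / F p.1 p.2) (u, v) := by
  have h1 := diff_rV hS hp
  have h2 := diff_F hS hp
  have h3 : F u v ≠ 0 := (hS.F_pos u v hp).ne'
  simp only [div_eq_mul_inv]
  exact h1.mul (h2.inv h3)

theorem diff_ms (hS : Quot W F r) (hp : (u, v) ∈ W) :
    DifferentiableAt ℝ (fun p : ℝ × ℝ => ms F r p.1 p.2) (u, v) := by
  unfold ms
  have h1 : DifferentiableAt ℝ (fun p : ℝ × ℝ => r p.1 p.2 / (2 : ℝ)) (u, v) := by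
    simp only [div_eq_mul_inv]
    exact (diff_r hS hp).mul_const (2 : ℝ)⁻¹
  have h2 : DifferentiableAt ℝ (fun p : ℝ × ℝ => (2 : ℝ) * r p.1 p.2) (u, v) :=
    (diff_r hS hp).const_mul (2 : ℝ)
  exact h1.add ((h2.mul (diff_rUF hS hp)).mul (diff_rV hS hp))

theorem dU_ms (hS : Quot W F r) (hp : (u, v) ∈ W) :
    dU (ms F r) u v = 2 * r u v * dV r u v * dU (fun a b => dU r a b / F a b) u v
      + 2 * (dU r u v / F u v) * (r u v * dU (dV r) u v + dU r u v * dV r u v + F u v / 4) := by
  have h1 := hasDerivAt_dU (f := r) (diff_r hS hp)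
  have h2 := hasDerivAt_dU (f := fun a b => dU r a b / F a b) (diff_rUF hS hp)
  have h3 := hasDerivAt_dU (f := dV r) (diff_rV hS hp)
  have h4 := (h1.div_const 2).add (((h1.const_mul 2).mul h2).mul h3)
  have hF : F u v ≠ 0 := (hS.F_pos u v hp).ne'
  have h5 : dU (ms F r) u v = _ := h4.deriv
  rw [h5]
  simp only [Pi.mul_apply]
  field_simp
  ring

theorem dV_ms (hS : Quot W F r) (hp : (u, v) ∈ W) :
    dV (ms F r) u v = 2 * r u v * dU r u v * dV (fun a b => dV r a b / F a b) u v
      + 2 * (dV r u v / F u v) * (r u v * dU (dV r) u v + dU r u v * dV r u v + F u v / 4) := by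
  have h1 := hasDerivAt_dV (f := r) (diff_r hS hp)
  have h2 := hasDerivAt_dV (f := fun a b => dV r a b / F a b) (diff_rVF hS hp)
  have h3 := hasDerivAt_dV (f := dU r) (diff_rU hS hp)
  have h4 := (h1.div_const 2).add (((h1.const_mul 2).mul h2).mul h3)
  have hF : F u v ≠ 0 := (hS.F_pos u v hp).ne'
  have e : (fun s => ms F r u s) = fun s => r u s / 2 + 2 * r u s * (dV r u s / F u s)
      * dU r u s := by
    funext s; unfold ms; ring
  have h5 : dV (ms F r) u v = deriv (fun s => ms F r u s) v := rfl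
  rw [h5, e, dU_dV_comm hS.isOpen hS.contDiff_r hp]
  refine h4.deriv.trans ?_
  simp only [Pi.mul_apply]
  field_simp
  ring

/-- Monotonicity of the mass in the untrapped region. -/
theorem ms_deriv_nonneg (hS : Quot W F r) (hp : (u, v) ∈ W)
    (e3 : 0 ≤ r u v * dU (dV r) u v + dU r u v * dV r u v + F u v / 4)
    (h1 : dU r u v ≤ 0) (h2 : 0 ≤ dV r u v) {a b : ℝ} (ha : a ≤ 0) (hb : 0 ≤ b) :
    0 ≤ dU (ms F r) u v * a + dV (ms F r) u v * b := by
  have hF := hS.F_pos u v hp
  have hr := hS.r_pos u v hp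
  have e1 := hS.energy_uu u v hp
  have e2 := hS.energy_vv u v hp
  have m1 : dU (ms F r) u v ≤ 0 := by
    rw [dU_ms hS hp]
    have t1 : 2 * r u v * dV r u v * dU (fun a b => dU r a b / F a b) u v ≤ 0 :=
      mul_nonpos_of_nonneg_of_nonpos (by positivity) e1
    have t2 : 2 * (dU r u v / F u v) ≤ 0 := by
      have := div_nonpos_of_nonpos_of_nonneg h1 hF.le
      linarith
    have t3 := mul_nonpos_of_nonpos_of_nonneg t2 e3
    linarith
  have m2 : 0 ≤ dV (ms F r) u v := by
    rw [dV_ms hS hp]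
    have t1 : 0 ≤ 2 * r u v * dU r u v * dV (fun a b => dV r a b / F a b) u v := by
      have : 2 * r u v * dU r u v ≤ 0 := mul_nonpos_of_nonneg_of_nonpos (by positivity) h1
      exact mul_nonneg_of_nonpos_of_nonpos this e2
    have t2 : 0 ≤ 2 * (dV r u v / F u v) := by positivity
    have t3 := mul_nonneg t2 e3
    linarith
  have := mul_nonneg_of_nonpos_of_nonpos m1 ha
  have := mul_nonneg m2 hb
  linarith

/-- Raychaudhuri: along a `u = const` ray the radius is largest where `∂_v r = 0`. -/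
theorem r_le_of_dV_eq_zero (hS : Quot W F r) {v₀ v₁ : ℝ} (h0 : (u, v₀) ∈ W)
    (h1 : (u, v₁) ∈ W) (hz : dV r u v₀ = 0) : r u v₁ ≤ r u v₀ := by
  have hq : ∀ v, (u, v) ∈ W → HasDerivAt (fun s => dV r u s / F u s)
      (dV (fun a b => dV r a b / F a b) u v) v := fun v hv =>
    hasDerivAt_dV (f := fun a b => dV r a b / F a b) (diff_rVF hS hv)
  have hr : ∀ v, (u, v) ∈ W → HasDerivAt (fun s => r u s) (dV r u v) v := fun v hv =>
    hasDerivAt_dV (f := r) (diff_r hS hv)
  rcases le_total v₀ v₁ with hle | hle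
  · have hseg : ∀ v ∈ Icc v₀ v₁, (u, v) ∈ W := fun v hv => (hS.convex_v u).out h0 h1 hv
    have hanti : AntitoneOn (fun s => dV r u s / F u s) (Icc v₀ v₁) :=
      antitoneOn_of_hasDerivWithinAt_nonpos (convex_Icc _ _)
        (fun v hv => (hq v (hseg v hv)).continuousAt.continuousWithinAt)
        (fun v hv => (hq v (hseg v (interior_subset hv))).hasDerivWithinAt)
        (fun v hv => hS.energy_vv u v (hseg v (interior_subset hv)))
    have hneg : ∀ v ∈ Icc v₀ v₁, dV r u v ≤ 0 := by
      intro v hv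
      have := hanti (left_mem_Icc.2 hle) hv hv.1
      simp only [hz, zero_div] at this
      have hF := hS.F_pos u v (hseg v hv)
      by_contra hcon
      push Not at hcon
      exact absurd this (not_le.2 (div_pos hcon hF))
    have hanti2 : AntitoneOn (fun s => r u s) (Icc v₀ v₁) :=
      antitoneOn_of_hasDerivWithinAt_nonpos (convex_Icc _ _)
        (fun v hv => (hr v (hseg v hv)).continuousAt.continuousWithinAt)
        (fun v hv => (hr v (hseg v (interior_subset hv))).hasDerivWithinAt)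
        (fun v hv => hneg v (interior_subset hv))
    exact hanti2 (left_mem_Icc.2 hle) (right_mem_Icc.2 hle) hle
  · have hseg : ∀ v ∈ Icc v₁ v₀, (u, v) ∈ W := fun v hv => (hS.convex_v u).out h1 h0 hv
    have hanti : AntitoneOn (fun s => dV r u s / F u s) (Icc v₁ v₀) :=
      antitoneOn_of_hasDerivWithinAt_nonpos (convex_Icc _ _)
        (fun v hv => (hq v (hseg v hv)).continuousAt.continuousWithinAt)
        (fun v hv => (hq v (hseg v (interior_subset hv))).hasDerivWithinAt)
        (fun v hv => hS.energy_vv u v (hseg v (interior_subset hv)))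
    have hpos : ∀ v ∈ Icc v₁ v₀, 0 ≤ dV r u v := by
      intro v hv
      have := hanti hv (right_mem_Icc.2 hle) hv.2
      simp only [hz, zero_div] at this
      have hF := hS.F_pos u v (hseg v hv)
      by_contra hcon
      push Not at hcon
      exact absurd this (not_le.2 (div_neg_of_neg_of_pos hcon hF))
    have hmono : MonotoneOn (fun s => r u s) (Icc v₁ v₀) :=
      monotoneOn_of_hasDerivWithinAt_nonneg (convex_Icc _ _)
        (fun v hv => (hr v (hseg v hv)).continuousAt.continuousWithinAt)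
        (fun v hv => (hr v (hseg v (interior_subset hv))).hasDerivWithinAt)
        (fun v hv => hpos v (interior_subset hv))
    exact hmono (left_mem_Icc.2 hle) (right_mem_Icc.2 hle) hle

/-- Raychaudhuri: along a `v = const` ray the radius is largest where `∂_u r = 0`. -/
theorem r_le_of_dU_eq_zero (hS : Quot W F r) {u₀ u₁ : ℝ} (h0 : (u₀, v) ∈ W)
    (h1 : (u₁, v) ∈ W) (hz : dU r u₀ v = 0) : r u₁ v ≤ r u₀ v := by
  have hq : ∀ u, (u, v) ∈ W → HasDerivAt (fun s => dU r s v / F s v)
      (dU (fun a b => dU r a b / F a b) u v) u := fun u hu =>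
    hasDerivAt_dU (f := fun a b => dU r a b / F a b) (diff_rUF hS hu)
  have hr : ∀ u, (u, v) ∈ W → HasDerivAt (fun s => r s v) (dU r u v) u := fun u hu =>
    hasDerivAt_dU (f := r) (diff_r hS hu)
  rcases le_total u₀ u₁ with hle | hle
  · have hseg : ∀ u ∈ Icc u₀ u₁, (u, v) ∈ W := fun u hu => (hS.convex_u v).out h0 h1 hu
    have hanti : AntitoneOn (fun s => dU r s v / F s v) (Icc u₀ u₁) :=
      antitoneOn_of_hasDerivWithinAt_nonpos (convex_Icc _ _)
        (fun u hu => (hq u (hseg u hu)).continuousAt.continuousWithinAt)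
        (fun u hu => (hq u (hseg u (interior_subset hu))).hasDerivWithinAt)
        (fun u hu => hS.energy_uu u v (hseg u (interior_subset hu)))
    have hneg : ∀ u ∈ Icc u₀ u₁, dU r u v ≤ 0 := by
      intro u hu
      have := hanti (left_mem_Icc.2 hle) hu hu.1
      simp only [hz, zero_div] at this
      have hF := hS.F_pos u v (hseg u hu)
      by_contra hcon
      push Not at hcon
      exact absurd this (not_le.2 (div_pos hcon hF))
    have hanti2 : AntitoneOn (fun s => r s v) (Icc u₀ u₁) :=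
      antitoneOn_of_hasDerivWithinAt_nonpos (convex_Icc _ _)
        (fun u hu => (hr u (hseg u hu)).continuousAt.continuousWithinAt)
        (fun u hu => (hr u (hseg u (interior_subset hu))).hasDerivWithinAt)
        (fun u hu => hneg u (interior_subset hu))
    exact hanti2 (left_mem_Icc.2 hle) (right_mem_Icc.2 hle) hle
  · have hseg : ∀ u ∈ Icc u₁ u₀, (u, v) ∈ W := fun u hu => (hS.convex_u v).out h1 h0 hu
    have hanti : AntitoneOn (fun s => dU r s v / F s v) (Icc u₁ u₀) :=
      antitoneOn_of_hasDerivWithinAt_nonpos (convex_Icc _ _)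
        (fun u hu => (hq u (hseg u hu)).continuousAt.continuousWithinAt)
        (fun u hu => (hq u (hseg u (interior_subset hu))).hasDerivWithinAt)
        (fun u hu => hS.energy_uu u v (hseg u (interior_subset hu)))
    have hpos : ∀ u ∈ Icc u₁ u₀, 0 ≤ dU r u v := by
      intro u hu
      have := hanti hu (right_mem_Icc.2 hle) hu.2
      simp only [hz, zero_div] at this
      have hF := hS.F_pos u v (hseg u hu)
      by_contra hcon
      push Not at hcon
      exact absurd this (not_le.2 (div_neg_of_neg_of_pos hcon hF))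
    have hmono : MonotoneOn (fun s => r s v) (Icc u₁ u₀) :=
      monotoneOn_of_hasDerivWithinAt_nonneg (convex_Icc _ _)
        (fun u hu => (hr u (hseg u hu)).continuousAt.continuousWithinAt)
        (fun u hu => (hr u (hseg u (interior_subset hu))).hasDerivWithinAt)
        (fun u hu => hpos u (interior_subset hu))
    exact hmono (left_mem_Icc.2 hle) (right_mem_Icc.2 hle) hle

end

end Pool.Agent.PenroseRound
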