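import Pool.Agent.PenroseRound.Defs

/-! Second derivatives at a local minimum. -/

open Filter Topology Set

namespace Pool.Agent.PenroseRound

open Pool.Agent.PenroseSph Pool.Agent.PenroseSlice

theorem deriv2_nonneg {f : ℝ → ℝ} {a : ℝ} (hmin : IsLocalMin f a)
    (hd : ∀ᶠ s in 𝓝 a, DifferentiableAt ℝ f s) (hdd : DifferentiableAt ℝ (deriv f) a) :
    0 ≤ deriv (deriv f) a := by
  by_contra hcon
  push Not at hcon
  set c := deriv (deriv f) a with hc
  set g : ℝ → ℝ := fun s => f s - c / 4 * (s - a) ^ 2 with hg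
  have hg1 : ∀ᶠ s in 𝓝 a, deriv g s = deriv f s - c / 2 * (s - a) := by
    filter_upwards [hd] with s hs
    have h1 : HasDerivAt (fun s : ℝ => c / 4 * (s - a) ^ 2) (c / 2 * (s - a)) s := by
      have := (((hasDerivAt_id s).sub_const a).pow 2).const_mul (c / 4)
      refine this.congr_deriv ?_
      simp only [id, Nat.cast_ofNat, Nat.add_one_sub_one, pow_one]
      ring
    exact (hs.hasDerivAt.sub h1).deriv
  have hd0 : deriv f a = 0 := hmin.deriv_eq_zero
  have hg0 : deriv g a = 0 := by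
    rw [hg1.self_of_nhds, hd0]; ring
  have hg2 : deriv (deriv g) a = c / 2 := by
    have h1 : deriv g =ᶠ[𝓝 a] fun s => deriv f s - c / 2 * (s - a) := hg1
    rw [h1.deriv_eq]
    have h2 : HasDerivAt (fun s => deriv f s - c / 2 * (s - a)) (c - c / 2 * 1) a :=
      hdd.hasDerivAt.sub (((hasDerivAt_id a).sub_const a).const_mul (c / 2))
    rw [h2.deriv]; ring
  have hcont : ContinuousAt g a :=
    (hd.self_of_nhds.continuousAt).sub (by fun_prop)
  have hmax : IsLocalMax g a := isLocalMax_of_deriv_deriv_neg (by rw [hg2]; linarith) hg0 hcont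
  have hboth : ∀ᶠ s in 𝓝 a, s = a := by
    filter_upwards [hmin, hmax] with s h1 h2
    simp only [hg, sub_self] at h2
    by_contra hne
    have h3 : 0 < (s - a) ^ 2 := by
      have : s - a ≠ 0 := sub_ne_zero.2 hne
      positivity
    have h4 : 0 < -c / 4 * (s - a) ^ 2 := mul_pos (by linarith) h3
    have h5 : f a - c / 4 * (0 : ℝ) ^ 2 = f a := by ring
    rw [h5] at h2
    linarith
  have h6 : ({a} : Set ℝ) ∈ 𝓝 a := by
    filter_upwards [hboth] with s hs
    exact hs
  have h7 := (isOpen_singleton_iff_nhds_eq_pure a).2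
    (le_antisymm (le_pure_iff.2 h6) (pure_le_nhds a))
  exact not_isOpen_singleton a h7

theorem pd_pd_nonneg {f : E3 → ℝ} {x : E3} (hf : ContDiffAt ℝ 2 f x) (hmin : IsLocalMin f x)
    (i : Fin 3) : 0 ≤ pd i (pd i f) x := by
  set e : E3 := EuclideanSpace.single i 1 with he
  have hline : ∀ s : ℝ, HasDerivAt (fun s : ℝ => x + s • e) e s := fun s => by
    have := ((hasDerivAt_id s).smul_const e).const_add x
    simpa using this
  have hcont : Tendsto (fun s : ℝ => x + s • e) (𝓝 0) (𝓝 x) := by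
    have := (hline 0).continuousAt
    unfold ContinuousAt at this
    simpa using this
  have hev : ∀ᶠ y in 𝓝 x, ContDiffAt ℝ 2 f y := hf.eventually (by simp)
  have hev' : ∀ᶠ s : ℝ in 𝓝 0, ContDiffAt ℝ 2 f (x + s • e) := hcont.eventually hev
  have h1 : ∀ᶠ s : ℝ in 𝓝 0, HasDerivAt (fun s : ℝ => f (x + s • e)) (pd i f (x + s • e)) s := by
    filter_upwards [hev'] with s hs
    have h2 := (hs.differentiableAt (by norm_num)).hasFDerivAt.comp_hasDerivAt s (hline s)
    exact h2
  have h2 : (deriv fun s : ℝ => f (x + s • e)) =ᶠ[𝓝 0] fun s => pd i f (x + s • e) := by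
    filter_upwards [h1] with s hs
    exact hs.deriv
  have hdp : DifferentiableAt ℝ (pd i f) x := by
    have h3 : DifferentiableAt ℝ (fderiv ℝ f) x :=
      (hf.fderiv_right (m := 1) (by norm_num)).differentiableAt (by norm_num)
    exact h3.clm_apply (differentiableAt_const e)
  have h3 : HasDerivAt (fun s : ℝ => pd i f (x + s • e)) (pd i (pd i f) x) 0 := by
    have hdp' : DifferentiableAt ℝ (pd i f) (x + (0 : ℝ) • e) := by simpa using hdp
    have h4 := hdp'.hasFDerivAt.comp_hasDerivAt 0 (hline 0)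
    have h5 : fderiv ℝ (pd i f) (x + (0 : ℝ) • e) e = pd i (pd i f) x := by
      rw [zero_smul, add_zero]; rfl
    rw [h5] at h4
    exact h4
  have hmin' : IsLocalMin (fun s : ℝ => f (x + s • e)) 0 := by
    have := hcont.eventually hmin
    unfold IsLocalMin IsMinFilter
    simpa using this
  have h6 := deriv2_nonneg hmin' (h1.mono fun s hs => hs.differentiableAt)
    ((h3.congr_of_eventuallyEq h2).differentiableAt)
  rw [h2.deriv_eq, h3.deriv] at h6
  exact h6

/-- The angular term is nonnegative where `F` is minimal. -/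
theorem sphereLaplacian_nonneg {G : E3 → ℝ} {ω : E3} (hω : ‖ω‖ = 1)
    (hG : ContDiffAt ℝ 2 (fun ξ => G (‖ξ‖⁻¹ • ξ)) ω) (hpos : 0 < G ω)
    (hmin : ∀ ω' : E3, ‖ω'‖ = 1 → G ω ≤ G ω') :
    0 ≤ sphereLaplacian (fun ξ => Real.sqrt (G ξ)) ω := by
  have hnorm : ‖ω‖⁻¹ • ω = ω := by rw [hω]; simp
  have hne : ω ≠ 0 := by
    intro h; rw [h, norm_zero] at hω; exact zero_ne_one hω
  have h1 : ContDiffAt ℝ 2 (fun ξ : E3 => Real.sqrt (G (‖ξ‖⁻¹ • ξ))) ω := by
    refine hG.sqrt ?_
    rw [hnorm]; exact hpos.ne'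
  have h2 : IsLocalMin (fun ξ : E3 => Real.sqrt (G (‖ξ‖⁻¹ • ξ))) ω := by
    have h3 : ∀ᶠ ξ : E3 in 𝓝 ω, ξ ≠ 0 := isOpen_ne.mem_nhds hne
    filter_upwards [h3] with ξ hξ
    refine Real.sqrt_le_sqrt ?_
    rw [hnorm]
    refine hmin _ ?_
    rw [norm_smul, norm_inv, norm_norm, inv_mul_cancel₀ (norm_ne_zero_iff.2 hξ)]
  unfold sphereLaplacian
  exact Finset.sum_nonneg fun i _ => pd_pd_nonneg h1 h2 i

end Pool.Agent.PenroseRound
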