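import Pool.Agent.PenroseRound.Energy
import Pool.Agent.PenroseRound.SecondDeriv

/-! The minimum of the quasi-local mass over the directions is monotone along rays. -/

open MeasureTheory Filter Topology Set Asymptotics

namespace Pool.Agent.PenroseRound

open Pool.Agent.PenroseSph Pool.Agent.PenroseSlice

section

variable {W : Set (ℝ × ℝ)} {F : ℝ → ℝ → E3 → ℝ} {r : ℝ → ℝ → ℝ} {U V : E3 → ℝ}

theorem inv_norm_smul (ω : Sp) : ‖(ω : E3)‖⁻¹ • (ω : E3) = ω := by
  rw [norm_eq_of_mem_sphere ω]; simp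

theorem sp_ne_zero (ω : Sp) : (ω : E3) ≠ 0 := by
  intro h
  have := norm_eq_of_mem_sphere ω
  rw [h, norm_zero] at this
  exact zero_ne_one this

/-- The data in a fixed direction. -/
theorem quot (hS : RoundSpacetime W F r) (ω : Sp) : Quot W (fun a b => F a b ω) r where
  isOpen := hS.isOpen
  convex_u := hS.convex_u
  convex_v := hS.convex_v
  F_pos u v h := hS.F_pos u v h ω
  r_pos := hS.r_pos
  contDiff_F := by
    have h1 : ContDiffOn ℝ 2 (fun p : ℝ × ℝ => (p.1, p.2, (ω : E3))) W := by fun_prop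
    have h2 := hS.contDiff_F.comp h1 fun p hp => ⟨hp, sp_ne_zero ω⟩
    refine h2.congr fun p _ => ?_
    simp only [Function.comp]
    rw [inv_norm_smul]
  contDiff_r := hS.contDiff_r
  energy_uu u v h := hS.energy_uu u v h ω
  energy_vv u v h := hS.energy_vv u v h ω

/-- The conformal factor along the slice. -/
noncomputable def ph (F : ℝ → ℝ → E3 → ℝ) (U V : E3 → ℝ) (x : E3) : ℝ :=
  F (U x) (V x) (‖x‖⁻¹ • x)

theorem gm_eq : gm (ph F U V) r U V = inducedMetric F r U V := rfl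

theorem sph_of {x : E3} (hx : x ≠ 0) : ‖x‖⁻¹ • x ∈ Metric.sphere (0 : E3) 1 := by
  rw [mem_sphere_zero_iff_norm, norm_smul, norm_inv, norm_norm,
    inv_mul_cancel₀ (norm_ne_zero_iff.2 hx)]

theorem afSlice (hS : RoundSpacetime W F r) (hT : IsTwoEndedSlice W F r U V) :
    AFSlice W (ph F U V) r U V where
  isOpen := hS.isOpen
  r_pos := hS.r_pos
  contDiff_r := hS.contDiff_r
  φ_pos x hx := hS.F_pos _ _ (hT.mem x (ne_of_reg hx)) ⟨_, sph_of (ne_of_reg hx)⟩
  cd_φ := by
    have hU : ContDiffOn ℝ 2 U reg := reg_eq ▸ hT.contDiff_U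
    have hV : ContDiffOn ℝ 2 V reg := reg_eq ▸ hT.contDiff_V
    have h1 : ContDiffOn ℝ 2 (fun x : E3 => (U x, V x, x)) reg :=
      hU.prodMk (hV.prodMk contDiffOn_id)
    have h2 := hS.contDiff_F.comp h1 fun x hx => ⟨hT.mem x (ne_of_reg hx), ne_of_reg hx⟩
    exact h2.of_le (by norm_num)
  contDiff_U := hT.contDiff_U
  contDiff_V := hT.contDiff_V
  mem := hT.mem
  outward := hT.outward
  decay := hT.decay

/-- The quasi-local mass in the direction `ω`. -/
noncomputable def Pm (F : ℝ → ℝ → E3 → ℝ) (r : ℝ → ℝ → ℝ) (u v : ℝ) (ω : Sp) : ℝ :=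
  ms (fun a b => F a b ω) r u v

theorem Mf_eq (t : ℝ) (ω : Sp) : Mf (ph F U V) r U V (pt t ω)
    = Pm F r (U (pt t ω)) (V (pt t ω)) ω := by
  have h : ‖pt t ω‖⁻¹ • pt t ω = (ω : E3) := by
    rw [norm_pt]
    unfold pt
    rw [smul_smul, inv_mul_cancel₀ (Real.exp_pos t).ne', one_smul]
  unfold Mf Pm ms ph
  rw [h]

/-- Continuity of the mass. -/
theorem cont_Pm (hS : RoundSpacetime W F r) {Y : Type*} [TopologicalSpace Y] {α β : Y → ℝ}
    {γ : Y → Sp} (hα : Continuous α) (hβ : Continuous β) (hγ : Continuous γ)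
    (hm : ∀ y, (α y, β y) ∈ W) : Continuous fun y => Pm F r (α y) (β y) (γ y) := by
  have h1 : Continuous fun y => r (α y) (β y) :=
    hS.contDiff_r.continuousOn.comp_continuous (hα.prodMk hβ) hm
  have hcU : ContDiffOn ℝ 1 (fun p : ℝ × ℝ => dU r p.1 p.2) W :=
    contDiffOn_dU hS.isOpen (n := 1) (by simpa [one_add_one_eq_two] using hS.contDiff_r)
  have hcV : ContDiffOn ℝ 1 (fun p : ℝ × ℝ => dV r p.1 p.2) W :=
    contDiffOn_dV hS.isOpen (n := 1) (by simpa [one_add_one_eq_two] using hS.contDiff_r)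
  have h2 : Continuous fun y => dU r (α y) (β y) :=
    hcU.continuousOn.comp_continuous (hα.prodMk hβ) hm
  have h3 : Continuous fun y => dV r (α y) (β y) :=
    hcV.continuousOn.comp_continuous (hα.prodMk hβ) hm
  have h4 : Continuous fun y => F (α y) (β y) (γ y) := by
    have h5 := hS.contDiff_F.continuousOn.comp_continuous
      (f := fun y => (α y, β y, (γ y : E3))) (by fun_prop) fun y => ⟨hm y, sp_ne_zero (γ y)⟩
    refine h5.congr fun y => ?_
    simp only [Function.comp]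
    rw [inv_norm_smul]
  unfold Pm ms
  exact (h1.div_const 2).add (((continuous_const.mul h1).mul
    (h2.div h4 fun y => (hS.F_pos _ _ (hm y) (γ y)).ne')).mul h3)

/-- At a direction minimizing the mass at an untrapped point, the derivative of the mass in
outward directions is nonnegative. -/
theorem deriv_nonneg_of_min (hS : RoundSpacetime W F r) {u v : ℝ} (hp : (u, v) ∈ W)
    (h1 : dU r u v < 0) (h2 : 0 < dV r u v) {ω : Sp} (hmin : ∀ ω', Pm F r u v ω ≤ Pm F r u v ω')
    {a b : ℝ} (ha : a ≤ 0) (hb : 0 ≤ b) :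
    0 ≤ dU (ms (fun a b => F a b ω) r) u v * a + dV (ms (fun a b => F a b ω) r) u v * b := by
  have hr := hS.r_pos u v hp
  have hF := hS.F_pos u v hp ω
  have hFmin : ∀ ω' : E3, ‖ω'‖ = 1 → F u v ω ≤ F u v ω' := by
    intro ω' hω'
    have hmem : ω' ∈ Metric.sphere (0 : E3) 1 := mem_sphere_zero_iff_norm.2 hω'
    have h3 := hmin ⟨ω', hmem⟩
    have hF' := hS.F_pos u v hp ⟨ω', hmem⟩
    unfold Pm ms at h3
    simp only at h3 hF'
    by_contra hcon
    push Not at hcon
    have h4 : dU r u v / F u v ω' < dU r u v / F u v ω := by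
      rw [div_lt_div_iff₀ hF' hF]
      exact mul_lt_mul_of_neg_left hcon h1
    have h5 : 2 * r u v * (dU r u v / F u v ω') * dV r u v
        < 2 * r u v * (dU r u v / F u v ω) * dV r u v := by
      have h6 : 0 < 2 * r u v := by linarith
      exact mul_lt_mul_of_pos_right (mul_lt_mul_of_pos_left h4 h6) h2
    linarith
  have hG : ContDiffAt ℝ 2 (fun ξ : E3 => F u v (‖ξ‖⁻¹ • ξ)) ω := by
    have hopen : IsOpen {p : ℝ × ℝ × E3 | (p.1, p.2.1) ∈ W ∧ p.2.2 ≠ 0} := by
      refine IsOpen.inter ?_ ?_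
      · exact hS.isOpen.preimage (by fun_prop : Continuous fun p : ℝ × ℝ × E3 => (p.1, p.2.1))
      · exact isOpen_ne.preimage (by fun_prop : Continuous fun p : ℝ × ℝ × E3 => p.2.2)
    have h3 : ContDiffAt ℝ 2 (fun p : ℝ × ℝ × E3 => F p.1 p.2.1 (‖p.2.2‖⁻¹ • p.2.2))
        (u, v, (ω : E3)) := hS.contDiff_F.contDiffAt (hopen.mem_nhds ⟨hp, sp_ne_zero ω⟩)
    have h4 : ContDiffAt ℝ 2 (fun ξ : E3 => (u, v, ξ)) (ω : E3) := by fun_prop
    exact ContDiffAt.comp (ω : E3) (g := fun p : ℝ × ℝ × E3 => F p.1 p.2.1 (‖p.2.2‖⁻¹ • p.2.2))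
      (f := fun ξ : E3 => (u, v, ξ)) h3 h4
  have hL := sphereLaplacian_nonneg (G := fun ξ => F u v ξ) (norm_eq_of_mem_sphere ω) hG hF hFmin
  have he := hS.energy_uv u v hp ω
  have hs : 0 ≤ Real.sqrt (F u v ω) * sphereLaplacian (fun ξ => Real.sqrt (F u v ξ)) ω :=
    mul_nonneg (Real.sqrt_nonneg _) hL
  exact ms_deriv_nonneg (quot hS ω) hp (by linarith) h1.le h2.le ha hb

/-- Lower bounds of the mass in all directions propagate outwards along rays in the untrapped
region. -/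
theorem ray_mono (hS : RoundSpacetime W F r) (hT : IsTwoEndedSlice W F r U V) {a b : ℝ}
    (hab : a ≤ b) (ω : Sp) (h : ∀ t, a < t → t < b → dU r (U (pt t ω)) (V (pt t ω)) < 0 ∧
      0 < dV r (U (pt t ω)) (V (pt t ω))) {c : ℝ}
    (hc : ∀ ω', c ≤ Pm F r (U (pt a ω)) (V (pt a ω)) ω') (ω' : Sp) :
    c ≤ Pm F r (U (pt b ω)) (V (pt b ω)) ω' := by
  have hA := afSlice hS hT
  have : Nonempty Sp := ⟨ω⟩
  set k : ℝ → Sp → ℝ := fun t ω' => Pm F r (U (pt t ω)) (V (pt t ω)) ω' with hk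
  have hmem : ∀ t, (U (pt t ω), V (pt t ω)) ∈ W := fun t => memW hA (pt_mem t ω)
  have hinj : Continuous fun t : ℝ => ((t, ω) : ℝ × Sp) := by fun_prop
  have hcU : Continuous fun t => U (pt t ω) := (cont_comp_pt (cdU hA).continuousOn).comp hinj
  have hcV : Continuous fun t => V (pt t ω) := (cont_comp_pt (cdV hA).continuousOn).comp hinj
  have hkc : Continuous (Function.uncurry k) :=
    cont_Pm hS (α := fun y : ℝ × Sp => U (pt y.1 ω)) (β := fun y : ℝ × Sp => V (pt y.1 ω))
      (γ := fun y => y.2) (hcU.comp continuous_fst) (hcV.comp continuous_fst) continuous_snd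
      fun y => hmem y.1
  set K : ℝ → ℝ := fun t => sInf ((fun ω' => k t ω') '' univ) with hK
  have hKc : Continuous K := isCompact_univ.continuous_sInf hkc
  have hKle : ∀ t ω', K t ≤ k t ω' := fun t ω' => by
    have hc : Continuous fun ω' => k t ω' := hkc.comp (Continuous.prodMk_right t)
    exact csInf_le (isCompact_univ.image hc).bddBelow ⟨ω', mem_univ _, rfl⟩
  have hKat : ∀ t, ∃ ω', k t ω' = K t := fun t => by
    have hc : Continuous fun ω' => k t ω' := hkc.comp (Continuous.prodMk_right t)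
    obtain ⟨ω', -, hω'⟩ := (isCompact_univ.image hc).sInf_mem (univ_nonempty.image _)
    exact ⟨ω', hω'⟩
  have hmono : K a ≤ K b := by
    refine le_of_touch_above' hab hKc.continuousOn fun t ht => ?_
    obtain ⟨ωt, hωt⟩ := hKat t
    have ho := hT.outward _ (pt_ne_zero t ω)
    have ho1 : ru U (t, ω) < 0 := by rw [ru_eq]; exact ho.1
    have ho2 : 0 < ru V (t, ω) := by rw [ru_eq]; exact ho.2
    have hE := Real.exp_pos t
    refine ⟨fun s => k s ωt, dU (ms (fun a b => F a b ωt) r) (U (pt t ω)) (V (pt t ω))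
        * (Real.exp t * ru U (t, ω))
        + dV (ms (fun a b => F a b ωt) r) (U (pt t ω)) (V (pt t ω)) * (Real.exp t * ru V (t, ω)),
        ?_, ?_, hωt, Eventually.of_forall fun s => hKle s ωt⟩
    · refine deriv_nonneg_of_min hS (hmem t) (h t ht.1 ht.2).1 (h t ht.1 ht.2).2
        (fun ω'' => ?_) (mul_nonpos_of_nonneg_of_nonpos hE.le ho1.le) (mul_nonneg hE.le ho2.le)
      have h1 := hKle t ω''
      rw [← hωt] at h1
      exact h1
    · exact hasDerivAt_comp_curve (f := ms (fun a b => F a b ωt) r)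
        (diff_ms (quot hS ωt) (hmem t)) (hderU hA t ω) (hderV hA t ω)
  obtain ⟨ωa, hωa⟩ := hKat a
  have h1 := hc ωa
  have h2 : c ≤ K a := by rw [← hωa]; exact h1
  exact h2.trans (hmono.trans (hKle b ω'))

end

end Pool.Agent.PenroseRound
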